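import Pool.Agent.W617.LG.StmI

set_option autoImplicit false

open Topology Filter Set
open scoped ContDiff InnerProductSpace

namespace Pool.Agent.W414.LG

open Pool.Agent.W617.LG

theorem inv : S_SMN → S_INJ → S_SUR → S_INV := by
  intro hSMN hINJ hSUR q G M N A hHD hNF hA hiso
  have hN0 : ∀ y : E q, y ≠ 0 → N 1 y y ≠ 0 := by
    intro y hy h0
    obtain ⟨u, hu⟩ := hNF.unit 1 y hy
    apply hy
    have : (↑u⁻¹ : E q →L[ℝ] E q) (N 1 y y) = y := by
      rw [← hu, ← ContinuousLinearMap.mul_apply, Units.inv_mul]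
      rfl
    rw [← this, h0, map_zero]
  obtain ⟨uA, huA⟩ := hA
  have hAinv : ∀ x, A ((↑uA⁻¹ : E q →L[ℝ] E q) x) = x := by
    intro x
    rw [← huA, ← ContinuousLinearMap.mul_apply, Units.mul_inv]
    rfl
  have hAinv' : ∀ x, (↑uA⁻¹ : E q →L[ℝ] E q) (A x) = x := by
    intro x
    rw [← huA, ← ContinuousLinearMap.mul_apply, Units.inv_mul]
    rfl
  set Z : E q → E q := fun y => A (N 1 y y) with hZ
  have Z0 : ∀ y, y ≠ 0 → Z y ≠ 0 := by
    intro y hy h0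
    apply hN0 y hy
    rw [← hAinv' (N 1 y y)]
    change (↑uA⁻¹ : E q →L[ℝ] E q) (Z y) = 0
    rw [h0, map_zero]
  have Zinj : ∀ y y', y ≠ 0 → y' ≠ 0 → Z y = Z y' → y = y' := by
    intro y y' hy hy' h
    apply hINJ q G M N hHD hNF 1 y y' hy hy'
    rw [← hAinv' (N 1 y y), ← hAinv' (N 1 y' y')]
    change (↑uA⁻¹ : E q →L[ℝ] E q) (Z y) = (↑uA⁻¹ : E q →L[ℝ] E q) (Z y')
    rw [h]
  have Zsur : ∀ x, x ≠ 0 → ∃ y, y ≠ 0 ∧ Z y = x := by
    intro x hx
    have h1 : (↑uA⁻¹ : E q →L[ℝ] E q) x ≠ 0 := by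
      intro h0
      apply hx
      rw [← hAinv x, h0, map_zero]
    obtain ⟨y, hy, h2⟩ := hSUR q G M N hHD hNF 1 _ h1
    exact ⟨y, hy, by simp only [hZ]; rw [h2, hAinv]⟩
  have Zhom : ∀ y, y ≠ 0 → ∀ r : ℝ, 0 < r → Z (r • y) = r • Z y := by
    intro y hy r hr
    simp only [hZ]
    rw [hNF.hom 1 y hy r hr, map_smul, map_smul]
  have hunit : ∀ y, y ≠ 0 → IsUnit (A * N 1 y) := fun y hy => (huA ▸ uA.isUnit).mul (hNF.unit 1 y hy)
  have hsm : ∀ y, y ≠ 0 → ContDiffAt ℝ ∞ (N 1) y := hSMN q G M N hHD hNF 1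
  have Zsm : ∀ y, y ≠ 0 → ContDiffAt ℝ ∞ Z y := by
    intro y hy
    exact A.contDiff.contDiffAt.comp y ((hsm y hy).clm_apply contDiffAt_id)
  have Zder : ∀ y, y ≠ 0 → HasFDerivAt Z (A * N 1 y) y := by
    intro y hy
    have h1 := (hNF.der 1 y hy).clm_apply (hasFDerivAt_id y)
    have h2 := A.hasFDerivAt.comp y h1
    refine h2.congr_fderiv ?_
    ext1 v
    have h3 : M y v y = 0 := by
      rw [hHD.M12 y hy v y, hHD.Mrad y hy]
      rfl
    simp [ContinuousLinearMap.mul_apply, h3]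
  classical
  set Y : E q → E q := fun x => if h : x ≠ 0 then (Zsur x h).choose else 0 with hY
  have Y0 : ∀ x, x ≠ 0 → Y x ≠ 0 := by
    intro x hx
    simp only [hY, dif_pos hx]
    exact (Zsur x hx).choose_spec.1
  have Yinv : ∀ x, x ≠ 0 → Z (Y x) = x := by
    intro x hx
    simp only [hY, dif_pos hx]
    exact (Zsur x hx).choose_spec.2
  have Yinv' : ∀ y, y ≠ 0 → Y (Z y) = y := by
    intro y hy
    exact Zinj _ _ (Y0 _ (Z0 y hy)) hy (Yinv _ (Z0 y hy))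
  have hinf : (∞ : WithTop ℕ∞) ≠ 0 := by simp
  have key : ∀ x, x ≠ 0 → ContDiffAt ℝ ∞ Y x ∧ HasFDerivAt Y (Ring.inverse (A * N 1 (Y x))) x := by
    intro x hx
    obtain ⟨u, hu⟩ := hunit (Y x) (Y0 x hx)
    set f' : E q ≃L[ℝ] E q := ContinuousLinearEquiv.unitsEquiv ℝ (E q) u with hf'
    have hcoe : (f' : E q →L[ℝ] E q) = A * N 1 (Y x) := by
      rw [← hu]
      rfl
    have hd : HasFDerivAt Z (f' : E q →L[ℝ] E q) (Y x) := by
      rw [hcoe]
      exact Zder _ (Y0 x hx)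
    have hs := Zsm _ (Y0 x hx)
    have hstrict : HasStrictFDerivAt Z (f' : E q →L[ℝ] E q) (Y x) := hs.hasStrictFDerivAt' hd hinf
    have hg := hs.to_localInverse hd hinf
    rw [Yinv x hx] at hg
    have hgx : hs.localInverse hd hinf (Z (Y x)) = Y x := hs.localInverse_apply_image hd hinf
    rw [Yinv x hx] at hgx
    have hright : ∀ᶠ z in 𝓝 (Z (Y x)), Z (hs.localInverse hd hinf z) = z :=
      hstrict.eventually_right_inverse
    rw [Yinv x hx] at hright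
    have hne : ∀ᶠ z in 𝓝 x, hs.localInverse hd hinf z ≠ 0 := by
      apply hg.continuousAt.eventually_ne
      rw [hgx]
      exact Y0 x hx
    have heq : Y =ᶠ[𝓝 x] hs.localInverse hd hinf := by
      filter_upwards [hright, hne, isOpen_ne.mem_nhds hx] with z h1 h2 h3
      exact Zinj _ _ (Y0 z h3) h2 (by rw [Yinv z h3, h1])
    have hYsm : ContDiffAt ℝ ∞ Y x := hg.congr_of_eventuallyEq heq
    refine ⟨hYsm, ?_⟩
    have h3 : HasFDerivAt Y (f'.symm : E q →L[ℝ] E q) x :=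
      HasFDerivAt.of_local_left_inverse hYsm.continuousAt hd (by
        filter_upwards [isOpen_ne.mem_nhds hx] with z hz
        exact Yinv z hz)
    rw [← hu, Ring.inverse_unit]
    exact h3
  refine ⟨Y, hHD, hNF, huA ▸ uA.isUnit, hiso, hSMN q G M N hHD hNF, hINJ q G M N hHD hNF, Y0, Yinv,
    Yinv', fun x hx => (key x hx).1, fun x hx => (key x hx).2, ?_⟩
  intro x hx r hr
  have hrx : r • x ≠ 0 := smul_ne_zero hr.ne' hx
  apply Zinj _ _ (Y0 _ hrx) (smul_ne_zero hr.ne' (Y0 x hx))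
  rw [Yinv _ hrx, Zhom _ (Y0 x hx) r hr, Yinv x hx]

end Pool.Agent.W414.LG
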