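import Pool.Agent.W550.LG.StmV

set_option autoImplicit false

namespace Pool.Agent.W414.LG

open Pool.Agent.W550.LG

lemma log_three_mul_le {ρ : ℝ} (h : 120 ≤ ρ) : Real.log (3 * ρ) ≤ ρ / 17 := by
  have h1 : Real.log 360 ≤ 6 := by
    rw [Real.log_le_iff_le_exp (by norm_num)]
    have h2 := Real.exp_one_gt_d9
    have h3 : Real.exp 6 = Real.exp 1 ^ 6 := by rw [← Real.exp_nat_mul]; norm_num
    rw [h3]
    calc (360:ℝ) ≤ 2.7182818283 ^ 6 := by norm_num
      _ ≤ Real.exp 1 ^ 6 := pow_le_pow_left₀ (by norm_num) h2.le 6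
  have h2 : 3 * ρ = 360 * (ρ / 120) := by ring
  rw [h2, Real.log_mul (by norm_num) (by positivity)]
  have h3 := Real.log_le_sub_one_of_pos (show 0 < ρ / 120 by positivity)
  linarith

/-- one step of the iteration -/
noncomputable def stp (x : ℝ × ℕ) : ℝ × ℕ :=
  (x.1 * (Real.log x.2 / (3 * Real.log (1 / x.1))), x.2 + x.2 / 8)

theorem iter : S_ITER := by
  rintro P hyp1 hyp2 ⟨ε, n0, hε, hε2, step⟩
  obtain ⟨C1, hC1, hb1⟩ := hyp1 1
  set h1 : ℝ := min ε (1 / max C1 1) with hh1
  have hh1pos : 0 < h1 := lt_min hε (by positivity)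
  -- small h : log n ≤ 3 log (1/h)
  have key : ∀ (h : ℝ) (n : ℕ), 0 < h → h < h1 → 14 ≤ n → P h n →
      Real.log n ≤ 3 * Real.log (1 / h) ∧ 0 < Real.log (1 / h) := by
    intro h n hh hlt hn hP
    have hn0 : (0:ℝ) < n := by exact_mod_cast (by omega : 0 < n)
    have h2 : h < ε := hlt.trans_le (min_le_left _ _)
    have h3 : h < 1 / max C1 1 := hlt.trans_le (min_le_right _ _)
    have h4 : 0 < Real.log (1 / h) := by
      apply Real.log_pos
      rw [lt_div_iff₀ hh]
      linarith
    have hm : (0:ℝ) < max C1 1 := by positivity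
    have h5 : Real.log C1 ≤ Real.log (1 / h) := by
      apply Real.log_le_log hC1
      rw [le_div_iff₀ hh]
      rw [lt_div_iff₀ hm] at h3
      have h6 : C1 ≤ max C1 1 := le_max_left _ _
      nlinarith
    have h6 := hb1 h n hh (by omega) hP
    rw [pow_one] at h6
    have h7 : Real.log (h * n) ≤ Real.log C1 := Real.log_le_log (by positivity) h6
    rw [Real.log_mul hh.ne' hn0.ne'] at h7
    have h8 : Real.log (1 / h) = -Real.log h := by rw [one_div, Real.log_inv]
    refine ⟨?_, h4⟩
    rw [h8] at h5 h4 ⊢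
    linarith
  obtain ⟨h0, m0, hh0, hlt0, hm0, hP0⟩ := hyp2 (max n0 14) h1 hh1pos
  have hm14 : 14 ≤ m0 := (le_max_right _ _).trans hm0
  set s : ℕ → ℝ × ℕ := fun j => stp^[j] (h0, m0) with hs
  have hsucc : ∀ j, s (j + 1) = stp (s j) := fun j => Function.iterate_succ_apply' _ _ _
  set ρ : ℝ := max (Real.log (1 / h0) / Real.log m0) 120 with hρ
  have hρ120 : 120 ≤ ρ := le_max_right _ _
  have hlog3 := log_three_mul_le hρ120
  have inv : ∀ j, 0 < (s j).1 ∧ (s j).1 ≤ h0 ∧ max n0 14 ≤ (s j).2 ∧ P (s j).1 (s j).2 ∧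
      (j:ℝ) / 17 ≤ Real.log (s j).2 ∧ Real.log (1 / (s j).1) ≤ ρ * Real.log (s j).2 := by
    intro j
    induction j with
    | zero =>
      have hm0' : (1:ℝ) < m0 := by exact_mod_cast (by omega : 1 < m0)
      have hl : 0 < Real.log m0 := Real.log_pos hm0'
      have e : s 0 = (h0, m0) := rfl
      rw [e]
      refine ⟨hh0, le_rfl, hm0, hP0, ?_, ?_⟩
      · simpa using hl.le
      · have := le_max_left (Real.log (1 / h0) / Real.log m0) 120
        rw [← hρ, div_le_iff₀ hl] at this
        exact this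
    | succ j ih =>
      obtain ⟨i1, i2, i3, i4, i5, i6⟩ := ih
      rw [hsucc]
      set h := (s j).1 with hh
      set n := (s j).2 with hn
      have hn14 : 14 ≤ n := (le_max_right _ _).trans i3
      have hn0' : (0:ℝ) < n := by exact_mod_cast (by omega : 0 < n)
      have hn1 : (1:ℝ) < n := by exact_mod_cast (by omega : 1 < n)
      have hν : 0 < Real.log n := Real.log_pos hn1
      have hltj : h < h1 := i2.trans_lt hlt0
      obtain ⟨k1, k2⟩ := key h n i1 hltj hn14 i4
      have e1 : (stp (s j)).1 = h * (Real.log n / (3 * Real.log (1 / h))) := rfl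
      have e2 : (stp (s j)).2 = n + n / 8 := rfl
      have hfac0 : 0 < Real.log n / (3 * Real.log (1 / h)) := by positivity
      have hfac1 : Real.log n / (3 * Real.log (1 / h)) ≤ 1 := by
        rw [div_le_one (by positivity)]
        exact k1
      have hc : Real.log n + 1 / 17 ≤ Real.log ((n + n / 8 : ℕ) : ℝ) := by
        have h2 : 17 * n ≤ 16 * (n + n / 8) := by omega
        have h3 : (17:ℝ) / 16 * n ≤ ((n + n / 8 : ℕ) : ℝ) := by
          have : (17:ℝ) * n ≤ 16 * ((n + n / 8 : ℕ) : ℝ) := by exact_mod_cast h2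
          linarith
        have h4 : Real.log (17 / 16 * n) ≤ Real.log ((n + n / 8 : ℕ) : ℝ) :=
          Real.log_le_log (by positivity) h3
        rw [Real.log_mul (by norm_num) hn0'.ne'] at h4
        have h5 := Real.one_sub_inv_le_log_of_pos (show (0:ℝ) < 17 / 16 by norm_num)
        have h6 : (1:ℝ) - (17 / 16)⁻¹ = 1 / 17 := by norm_num
        rw [h6] at h5
        linarith
      rw [e1, e2]
      refine ⟨by positivity, ?_, by omega, ?_, ?_, ?_⟩
      · calc h * (Real.log n / (3 * Real.log (1 / h))) ≤ h * 1 := by gcongr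
          _ ≤ h0 := by rw [mul_one]; exact i2
      · exact step h n i1 (hltj.trans_le (min_le_left _ _)) ((le_max_left _ _).trans i3) (by omega) k1 i4
      · push_cast at hc ⊢
        linarith
      · have e3 : Real.log (1 / (h * (Real.log n / (3 * Real.log (1 / h))))) =
            Real.log (1 / h) + Real.log (3 * Real.log (1 / h) / Real.log n) := by
          rw [← Real.log_mul (by positivity) (by positivity)]
          congr 1
          field_simp
        rw [e3]
        have h2 : Real.log (3 * Real.log (1 / h) / Real.log n) ≤ Real.log (3 * ρ) := by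
          apply Real.log_le_log (by positivity)
          rw [div_le_iff₀ hν]
          linarith
        have h3 : ρ * (Real.log n + 1 / 17) ≤ ρ * Real.log ((n + n / 8 : ℕ) : ℝ) :=
          mul_le_mul_of_nonneg_left hc (by linarith)
        linarith
  obtain ⟨k, hk⟩ := exists_nat_gt (ρ + 1)
  obtain ⟨Ck, hCk, hbk⟩ := hyp1 k
  obtain ⟨j, hj⟩ := exists_nat_gt (17 * Real.log Ck)
  obtain ⟨i1, i2, i3, i4, i5, i6⟩ := inv j
  set h := (s j).1 with hh
  set n := (s j).2 with hn
  have hn14 : 14 ≤ n := (le_max_right _ _).trans i3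
  have hn0' : (0:ℝ) < n := by exact_mod_cast (by omega : 0 < n)
  have hn1 : (1:ℝ) < n := by exact_mod_cast (by omega : 1 < n)
  have hν : 0 < Real.log n := Real.log_pos hn1
  have h2 := hbk h n i1 (by omega) i4
  have h3 : Real.log (h * (n:ℝ) ^ k) ≤ Real.log Ck := Real.log_le_log (by positivity) h2
  rw [Real.log_mul i1.ne' (by positivity), Real.log_pow] at h3
  have h4 : Real.log (1 / h) = -Real.log h := by rw [one_div, Real.log_inv]
  rw [h4] at i6
  have h5 : Real.log n ≤ Real.log Ck := by nlinarith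
  linarith

end Pool.Agent.W414.LG
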