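import Pool.Agent.W550.LG.StmV

set_option autoImplicit false

open Set MeasureTheory

namespace Pool.Agent.W414.LG

open Pool.Agent.W550.LG

section T

variable {L : ℝ → ℝ} {al : ℝ}

lemma inner_cont (hL : Continuous L) {f : ℝ → ℝ} (hf : Continuous f) :
    Continuous fun σ => ∫ r in al..σ, Real.exp (L σ - L r) * f r := by
  have h1 : (fun σ => ∫ r in al..σ, Real.exp (L σ - L r) * f r) =
      fun σ => Real.exp (L σ) * ∫ r in al..σ, Real.exp (-L r) * f r := by
    funext σ
    rw [← intervalIntegral.integral_const_mul]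
    congr 1
    funext r
    rw [sub_eq_add_neg, Real.exp_add]
    ring
  rw [h1]
  have h2 : Continuous fun r => Real.exp (-L r) * f r := by fun_prop
  exact (Real.continuous_exp.comp hL).mul
    (intervalIntegral.continuous_primitive (fun a b => h2.intervalIntegrable a b) al)

lemma T_cont (hL : Continuous L) {f : ℝ → ℝ} (hf : Continuous f) : Continuous (T L al f) :=
  intervalIntegral.continuous_primitive
    (fun a b => (inner_cont (al := al) hL hf).intervalIntegrable a b) al

lemma in_int (hL : Continuous L) {f : ℝ → ℝ} (hf : Continuous f) (σ a b : ℝ) :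
    IntervalIntegrable (fun r => Real.exp (L σ - L r) * f r) volume a b := by
  have : Continuous fun r => Real.exp (L σ - L r) * f r := by fun_prop
  exact this.intervalIntegrable a b

lemma T_add (hL : Continuous L) {f g : ℝ → ℝ} (hf : Continuous f) (hg : Continuous g) (s : ℝ) :
    T L al (fun x => f x + g x) s = T L al f s + T L al g s := by
  unfold T
  rw [← intervalIntegral.integral_add ((inner_cont hL hf).intervalIntegrable _ _)
    ((inner_cont hL hg).intervalIntegrable _ _)]
  congr 1
  funext σ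
  rw [← intervalIntegral.integral_add (in_int hL hf _ _ _) (in_int hL hg _ _ _)]
  congr 1
  funext r
  ring

lemma T_mul (c : ℝ) (f : ℝ → ℝ) (s : ℝ) :
    T L al (fun x => c * f x) s = c * T L al f s := by
  unfold T
  rw [← intervalIntegral.integral_const_mul]
  congr 1
  funext σ
  rw [← intervalIntegral.integral_const_mul]
  congr 1
  funext r
  ring

lemma T_neg (f : ℝ → ℝ) (s : ℝ) : T L al (fun x => - f x) s = - T L al f s := by
  have h := T_mul (L := L) (al := al) (-1) f s
  simpa using h

lemma T_mono (hL : Continuous L) {f g : ℝ → ℝ} (hf : Continuous f) (hg : Continuous g) {s : ℝ}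
    (hs : al ≤ s) (h : ∀ x ∈ Icc al s, f x ≤ g x) : T L al f s ≤ T L al g s := by
  unfold T
  apply intervalIntegral.integral_mono_on hs ((inner_cont hL hf).intervalIntegrable _ _)
    ((inner_cont hL hg).intervalIntegrable _ _)
  intro σ hσ
  apply intervalIntegral.integral_mono_on hσ.1 (in_int hL hf _ _ _) (in_int hL hg _ _ _)
  intro r hr
  exact mul_le_mul_of_nonneg_left (h r ⟨hr.1, hr.2.trans hσ.2⟩) (Real.exp_pos _).le

lemma T_congr {f g : ℝ → ℝ} {s : ℝ}
    (hs : al ≤ s) (h : ∀ x ∈ Icc al s, f x = g x) : T L al f s = T L al g s := by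
  unfold T
  apply intervalIntegral.integral_congr
  intro σ hσ
  rw [uIcc_of_le hs] at hσ
  apply intervalIntegral.integral_congr
  intro r hr
  rw [uIcc_of_le hσ.1] at hr
  simp only
  rw [h r ⟨hr.1, hr.2.trans hσ.2⟩]

lemma T_nonneg {f : ℝ → ℝ} {s : ℝ}
    (hs : al ≤ s) (h : ∀ x ∈ Icc al s, 0 ≤ f x) : 0 ≤ T L al f s := by
  unfold T
  apply intervalIntegral.integral_nonneg hs
  intro σ hσ
  apply intervalIntegral.integral_nonneg hσ.1
  intro r hr
  exact mul_nonneg (Real.exp_pos _).le (h r ⟨hr.1, hr.2.trans hσ.2⟩)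

lemma T_incr (hL : Continuous L) {f : ℝ → ℝ} (hf : Continuous f) {r s : ℝ}
    (hr : al ≤ r) (hrs : r ≤ s) (h : ∀ x ∈ Icc al s, 0 ≤ f x) : T L al f r ≤ T L al f s := by
  unfold T
  have h1 := intervalIntegral.integral_add_adjacent_intervals (μ := volume) (a := al) (b := r)
    (c := s) ((inner_cont (al := al) hL hf).intervalIntegrable _ _)
    ((inner_cont (al := al) hL hf).intervalIntegrable _ _)
  rw [← h1]
  have h2 : 0 ≤ ∫ σ in r..s, ∫ r in al..σ, Real.exp (L σ - L r) * f r := by
    apply intervalIntegral.integral_nonneg hrs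
    intro σ hσ
    apply intervalIntegral.integral_nonneg (hr.trans hσ.1)
    intro x hx
    exact mul_nonneg (Real.exp_pos _).le (h x ⟨hx.1, hx.2.trans hσ.2⟩)
  linarith

lemma T_abs_le (hL : Continuous L) {f F : ℝ → ℝ} (hf : Continuous f) (hF : Continuous F) {s : ℝ}
    (hs : al ≤ s) (h : ∀ x ∈ Icc al s, |f x| ≤ F x) : |T L al f s| ≤ T L al F s := by
  rw [abs_le]
  constructor
  · rw [← T_neg]
    exact T_mono hL hF.neg hf hs fun x hx => (abs_le.1 (h x hx)).1
  · exact T_mono hL hf hF hs fun x hx => (abs_le.1 (h x hx)).2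

lemma T_one_pos (hL : Continuous L) {s : ℝ} (hs : al < s) : 0 < T L al 1 s := by
  unfold T
  apply intervalIntegral.intervalIntegral_pos_of_pos_on
    ((inner_cont (al := al) hL (f := 1) continuous_one).intervalIntegrable _ _) _ hs
  intro σ hσ
  apply intervalIntegral.intervalIntegral_pos_of_pos_on (in_int hL continuous_one _ _ _) _ hσ.1
  intro r _
  simp only [Pi.one_apply, mul_one]
  exact Real.exp_pos _

end T

/-- the abstract estimate -/
theorem core {L : ℝ → ℝ} {al om q e : ℝ} (hL : Continuous L) (hlt : al < om) (hq0 : 0 ≤ q)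
    (hq : q ≤ 1 / 40) (he0 : 0 ≤ e) (he : e ≤ 1 / 100)
    (h3 : ∀ s ∈ Icc al om, T L al (T L al (T L al 1)) s ≤ q * T L al (T L al 1) s)
    (h1 : T L al 1 om ≤ T L al (T L al 1) om / 8)
    {cc th : ℝ → ℝ} (hc : Continuous cc) (hth : Continuous th)
    (heq : ∀ s ∈ Icc al om, cc s = 1 - T L al cc s + T L al th s)
    (hthle : ∀ s ∈ Icc al om, ∀ M, (∀ r ∈ Icc al s, |cc r| ≤ M) → |th s| ≤ e * M) :
    1 < cc om := by
  set U := T L al 1 with hU
  set V := T L al U with hV
  set V3 := T L al V with hV3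
  set V4 := T L al V3 with hV4
  set V5 := T L al V4 with hV5
  have cU : Continuous U := T_cont hL continuous_one
  have cV : Continuous V := T_cont hL cU
  have c3 : Continuous V3 := T_cont hL cV
  have c4 : Continuous V4 := T_cont hL c3
  have U0 : ∀ s ∈ Icc al om, 0 ≤ U s := fun s hs => T_nonneg hs.1 fun x _ => zero_le_one
  have V0 : ∀ s ∈ Icc al om, 0 ≤ V s := fun s hs =>
    T_nonneg hs.1 fun x hx => U0 x ⟨hx.1, hx.2.trans hs.2⟩
  have b3 : ∀ s ∈ Icc al om, V3 s ≤ q * V s := h3
  have b4 : ∀ s ∈ Icc al om, V4 s ≤ q ^ 2 * V s := by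
    intro s hs
    have h := T_mono hL c3 (continuous_const.mul cV) hs.1 (g := fun x => q * V x)
      fun x hx => b3 x ⟨hx.1, hx.2.trans hs.2⟩
    rw [T_mul] at h
    have h2 := mul_le_mul_of_nonneg_left (b3 s hs) hq0
    calc V4 s ≤ q * V3 s := h
      _ ≤ q * (q * V s) := h2
      _ = _ := by ring
  have b5 : ∀ s ∈ Icc al om, V5 s ≤ q ^ 3 * V s := by
    intro s hs
    have h := T_mono hL c4 (continuous_const.mul cV) hs.1 (g := fun x => q ^ 2 * V x)
      fun x hx => b4 x ⟨hx.1, hx.2.trans hs.2⟩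
    rw [T_mul] at h
    have h2 := mul_le_mul_of_nonneg_left (b3 s hs) (pow_nonneg hq0 2)
    calc V5 s ≤ q ^ 2 * V3 s := h
      _ ≤ q ^ 2 * (q * V s) := h2
      _ = _ := by ring
  set W : ℝ → ℝ := fun s => 1 + U s + V s with hW
  have cW : Continuous W := by rw [hW]; fun_prop
  have W1 : ∀ s ∈ Icc al om, 1 ≤ W s := fun s hs => by
    have := U0 s hs; have := V0 s hs; simp only [hW]; linarith
  have TW : ∀ s, T L al W s = U s + V s + V3 s := by
    intro s
    have e1 : W = fun x => (1 + U x) + V x := rfl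
    have e2 : T L al (fun x => 1 + U x) s = U s + V s := by
      have := T_add (al := al) hL (f := 1) (g := U) continuous_one cU s
      simpa using this
    rw [e1, T_add hL (by fun_prop) cV, e2]
  have T2W : ∀ s, T L al (T L al W) s = V s + V3 s + V4 s := by
    intro s
    have e1 : T L al W = fun x => (U x + V x) + V3 x := by funext x; exact TW x
    rw [e1, T_add hL (by fun_prop) c3, T_add hL cU cV]
  have T3W : ∀ s, T L al (T L al (T L al W)) s = V3 s + V4 s + V5 s := by
    intro s
    have e1 : T L al (T L al W) = fun x => (V x + V3 x) + V4 x := by funext x; exact T2W x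
    rw [e1, T_add hL (by fun_prop) c4, T_add hL cV c3]
  -- the maximum
  obtain ⟨x0, hx0, hmax⟩ := isCompact_Icc.exists_isMaxOn (nonempty_Icc.2 hlt.le)
    (f := fun s => |cc s| / W s) (hc.abs.continuousOn.div cW.continuousOn fun s hs => by
      have := W1 s hs; positivity)
  set M := |cc x0| / W x0 with hM
  have M0 : 0 ≤ M := div_nonneg (abs_nonneg _) (by have := W1 x0 hx0; linarith)
  have bc : ∀ r ∈ Icc al om, |cc r| ≤ M * W r := by
    intro r hr
    have h := hmax hr
    simp only [mem_setOf_eq] at h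
    have hw := W1 r hr
    rwa [div_le_iff₀ (by linarith)] at h
  have Wmono : ∀ r s, al ≤ r → r ≤ s → s ≤ om → W r ≤ W s := by
    intro r s hr hrs hs
    have i1 := T_incr (al := al) hL (f := 1) continuous_one hr hrs (fun x _ => zero_le_one)
    have i2 := T_incr (al := al) hL cU hr hrs (fun x hx => U0 x ⟨hx.1, hx.2.trans hs⟩)
    simp only [hW]
    linarith
  have bt : ∀ s ∈ Icc al om, |th s| ≤ e * M * W s := by
    intro s hs
    have h := hthle s hs (M * W s) fun r hr => (bc r ⟨hr.1, hr.2.trans hs.2⟩).trans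
      (mul_le_mul_of_nonneg_left (Wmono r s hr.1 hr.2 hs.2) M0)
    linarith
  -- iterates of the bounds
  have it : ∀ (f : ℝ → ℝ) (m : ℝ), Continuous f → (∀ s ∈ Icc al om, |f s| ≤ m * W s) →
      ∀ s ∈ Icc al om, |T L al f s| ≤ m * T L al W s ∧
        |T L al (T L al f) s| ≤ m * T L al (T L al W) s ∧
        |T L al (T L al (T L al f)) s| ≤ m * T L al (T L al (T L al W)) s := by
    intro f m hf hb
    have j1 : ∀ s ∈ Icc al om, |T L al f s| ≤ m * T L al W s := by
      intro s hs
      have h := T_abs_le hL hf (F := fun x => m * W x) (by fun_prop) hs.1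
        fun x hx => hb x ⟨hx.1, hx.2.trans hs.2⟩
      rwa [T_mul] at h
    have cTW : Continuous (T L al W) := T_cont hL cW
    have j2 : ∀ s ∈ Icc al om, |T L al (T L al f) s| ≤ m * T L al (T L al W) s := by
      intro s hs
      have h := T_abs_le hL (T_cont hL hf) (F := fun x => m * T L al W x) (by fun_prop) hs.1
        fun x hx => j1 x ⟨hx.1, hx.2.trans hs.2⟩
      rwa [T_mul] at h
    have cTTW : Continuous (T L al (T L al W)) := T_cont hL cTW
    have j3 : ∀ s ∈ Icc al om, |T L al (T L al (T L al f)) s| ≤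
        m * T L al (T L al (T L al W)) s := by
      intro s hs
      have h := T_abs_le hL (T_cont hL (T_cont hL hf)) (F := fun x => m * T L al (T L al W) x)
        (by fun_prop) hs.1 fun x hx => j2 x ⟨hx.1, hx.2.trans hs.2⟩
      rwa [T_mul] at h
    exact fun s hs => ⟨j1 s hs, j2 s hs, j3 s hs⟩
  have ic := it cc M hc bc
  have ith := it th (e * M) hth bt
  -- the iterated equation
  have cTc : Continuous (T L al cc) := T_cont hL hc
  have cTt : Continuous (T L al th) := T_cont hL hth
  have lin : ∀ (f g h' : ℝ → ℝ), Continuous f → Continuous g → Continuous h' → ∀ s,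
      T L al (fun x => f x - g x + h' x) s = T L al f s - T L al g s + T L al h' s := by
    intro f g h' hf hg hh s
    have e1 : (fun x => f x - g x + h' x) = fun x => (f x + (- g x)) + h' x := by
      funext x; ring
    rw [e1, T_add hL (by fun_prop) hh, T_add hL hf (by fun_prop), T_neg]
    ring
  have eq1 : ∀ s ∈ Icc al om, T L al cc s = U s - T L al (T L al cc) s + T L al (T L al th) s := by
    intro s hs
    rw [T_congr hs.1 (g := fun x => (1 : ℝ → ℝ) x - T L al cc x + T L al th x)
      fun x hx => heq x ⟨hx.1, hx.2.trans hs.2⟩, lin _ _ _ continuous_one cTc cTt]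
  have eq2 : ∀ s ∈ Icc al om, T L al (T L al cc) s = V s - T L al (T L al (T L al cc)) s +
      T L al (T L al (T L al th)) s := by
    intro s hs
    rw [T_congr hs.1 (g := fun x => U x - T L al (T L al cc) x + T L al (T L al th) x)
      fun x hx => eq1 x ⟨hx.1, hx.2.trans hs.2⟩, lin _ _ _ cU (T_cont hL cTc) (T_cont hL cTt)]
  have eq3 : ∀ s ∈ Icc al om, cc s = 1 - U s + V s - T L al (T L al (T L al cc)) s +
      T L al th s - T L al (T L al th) s + T L al (T L al (T L al th)) s := by
    intro s hs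
    rw [heq s hs, eq1 s hs, eq2 s hs]
    ring
  -- numerical bounds
  have hq2 : q + q ^ 2 + q ^ 3 ≤ 26 / 1000 := by nlinarith [pow_nonneg hq0 2, pow_nonneg hq0 3]
  have n1 : ∀ s ∈ Icc al om, T L al (T L al (T L al W)) s ≤ 26 / 1000 * V s := by
    intro s hs
    rw [T3W]
    have := b3 s hs; have := b4 s hs; have := b5 s hs; have := V0 s hs
    nlinarith
  have n2 : ∀ s ∈ Icc al om, T L al W s + T L al (T L al W) s + T L al (T L al (T L al W)) s ≤
      U s + 3 * V s := by
    intro s hs
    have h := n1 s hs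
    rw [TW, T2W]
    have h3' := b3 s hs; have h4' := b4 s hs; have hv := V0 s hs
    have q2 : q ^ 2 ≤ q := by nlinarith
    nlinarith
  have n3 : ∀ s ∈ Icc al om, |T L al (T L al (T L al cc)) s| ≤ M * (26 / 1000 * V s) := by
    intro s hs
    exact (ic s hs).2.2.trans (mul_le_mul_of_nonneg_left (n1 s hs) M0)
  have n4 : ∀ s ∈ Icc al om, |T L al th s| + |T L al (T L al th) s| +
      |T L al (T L al (T L al th)) s| ≤ e * M * (U s + 3 * V s) := by
    intro s hs
    have heM : 0 ≤ e * M := by positivity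
    have h := mul_le_mul_of_nonneg_left (n2 s hs) heM
    have i := ith s hs
    linarith [i.1, i.2.1, i.2.2]
  have hM2 : M ≤ 2 := by
    have hs := hx0
    have h1' := n3 x0 hs
    have h2' := n4 x0 hs
    have hu := U0 x0 hs
    have hv := V0 x0 hs
    have hw : W x0 = 1 + U x0 + V x0 := rfl
    have hwpos := W1 x0 hs
    have hcc : |cc x0| = M * W x0 := by
      rw [hM, div_mul_cancel₀]
      positivity
    have h4 : |cc x0| ≤ 1 + U x0 + V x0 + |T L al (T L al (T L al cc)) x0| +
        (|T L al th x0| + |T L al (T L al th) x0| + |T L al (T L al (T L al th)) x0|) := by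
      rw [eq3 x0 hs, abs_le]
      constructor
      · linarith [neg_abs_le (T L al th x0), le_abs_self (T L al (T L al th) x0),
          neg_abs_le (T L al (T L al (T L al th)) x0), le_abs_self (T L al (T L al (T L al cc)) x0)]
      · linarith [le_abs_self (T L al th x0), neg_abs_le (T L al (T L al th) x0),
          le_abs_self (T L al (T L al (T L al th)) x0), neg_abs_le (T L al (T L al (T L al cc)) x0)]
    have h5 : M * (26 / 1000 * V x0) ≤ 26 / 1000 * (M * W x0) := by
      have : M * V x0 ≤ M * W x0 := mul_le_mul_of_nonneg_left (by linarith) M0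
      linarith
    have h6 : e * M * (U x0 + 3 * V x0) ≤ 3 / 100 * (M * W x0) := by
      have i1 : M * (U x0 + 3 * V x0) ≤ 3 * (M * W x0) := by
        have : M * (U x0 + 3 * V x0) ≤ M * (3 * W x0) :=
          mul_le_mul_of_nonneg_left (by linarith) M0
        linarith
      have i2 : 0 ≤ M * (U x0 + 3 * V x0) := by positivity
      calc e * M * (U x0 + 3 * V x0) = e * (M * (U x0 + 3 * V x0)) := by ring
        _ ≤ 1 / 100 * (M * (U x0 + 3 * V x0)) := mul_le_mul_of_nonneg_right he i2
        _ ≤ _ := by linarith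
    have h7 : M * W x0 ≤ W x0 + (26 / 1000 + 3 / 100) * (M * W x0) := by
      rw [← hcc] at h5 h6 ⊢
      linarith
    have h8 : M * W x0 ≤ 2 * W x0 := by linarith
    exact le_of_mul_le_mul_right h8 (by linarith)
  have hom : om ∈ Icc al om := ⟨hlt.le, le_rfl⟩
  have hVpos : 0 < V om := by
    have := T_one_pos hL hlt
    rw [← hU] at this
    linarith
  have h1' := n3 om hom
  have h2' := n4 om hom
  have hu := U0 om hom
  have h5 : M * (26 / 1000 * V om) ≤ 52 / 1000 * V om := by nlinarith
  have h6 : e * M * (U om + 3 * V om) ≤ 2 / 100 * (U om + 3 * V om) := by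
    apply mul_le_mul_of_nonneg_right _ (by positivity)
    nlinarith
  rw [eq3 om hom]
  have g1 := le_abs_self (T L al (T L al (T L al cc)) om)
  have g2 := neg_abs_le (T L al th om)
  have g3 := le_abs_self (T L al (T L al th) om)
  have g4 := neg_abs_le (T L al (T L al (T L al th)) om)
  linarith

lemma exp_fiftieth : Real.exp (1 / 50) ≤ 50 / 49 := by
  have h := Real.one_sub_le_exp_neg (1 / 50)
  rw [Real.exp_neg] at h
  have hp := Real.exp_pos (1 / 50)
  have h2 : (49:ℝ) / 50 ≤ (Real.exp (1 / 50))⁻¹ := by linarith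
  rw [le_inv_comm₀ (by norm_num) hp] at h2
  calc Real.exp (1 / 50) ≤ (49 / 50)⁻¹ := h2
    _ = 50 / 49 := by norm_num

theorem la : S_REP → S_T3 → S_T1 → S_LA := by
  intro hREP hT3 hT1 p0 p3 K C lam Lam hlam hLam hp hK hKb hC
  have hCK : 1 ≤ C * K := one_le_mul_of_one_le_of_one_le hC hK
  refine ⟨100 * (C * K) * (1 + (p3 - p0)), by nlinarith, ?_⟩
  intro t ht h d al b a2 om hal hom hh hd hTrip hexp1 hexp2 k c a th hP
  have hlt : al < om := hTrip.lt1.trans (hTrip.lt2.trans hTrip.lt3)
  have ht100 : 100 * (C * K) ≤ t := by nlinarith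
  have htp : 100 * (C * K) * (p3 - p0) ≤ t := by nlinarith
  have ht1 : 1 ≤ t := by linarith
  have htC : C ≤ t := by nlinarith
  have ht0 : 0 < t := by linarith
  have hsub : ∀ s ∈ Icc al om, s ∈ Icc p0 p3 := fun s hs => ⟨hal.trans hs.1, hs.2.trans hom⟩
  have ck := hP.k_cont
  set l : ℝ → ℝ := fun s => t * (lam s * k s) with hl
  have cl : Continuous l := by rw [hl]; fun_prop
  set L : ℝ → ℝ := fun s => ∫ x in al..s, l x with hLdef
  have dL : ∀ s, HasDerivAt L (l s) s := fun s => (cl.integral_hasStrictDerivAt al s).hasDerivAt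
  have cL : Continuous L := continuous_iff_continuousAt.2 fun s => (dL s).continuousAt
  have hk1 : ∀ s ∈ Icc al om, |k s - 1| ≤ C / t ^ 2 ∧ |k s| ≤ 1 := by
    intro s hs
    have h1 := hP.k_le s
    have h2 := hP.le_k s hs
    have h3 : C / t ^ 2 ≤ 1 := by
      rw [div_le_one (by positivity)]
      nlinarith
    have h4 : 0 ≤ C / t ^ 2 := by positivity
    constructor <;> rw [abs_le] <;> constructor <;> linarith
  have Lsub : ∀ r s, L s - L r = ∫ x in r..s, l x := fun r s =>
    intervalIntegral.integral_interval_sub_left (cl.intervalIntegrable _ _) (cl.intervalIntegrable _ _)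
  have hmemI : ∀ r ∈ Icc al om, ∀ s ∈ Icc al om, ∀ x ∈ uIoc r s, x ∈ Icc al om := by
    intro r hr s hs x hx
    exact uIcc_subset_Icc hr hs (uIoc_subset_uIcc hx)
  have Lip : ∀ r ∈ Icc al om, ∀ s ∈ Icc al om, |L r - L s| ≤ t * K * |r - s| := by
    intro r hr s hs
    rw [Lsub s r, ← Real.norm_eq_abs (∫ x in s..r, l x)]
    apply intervalIntegral.norm_integral_le_of_norm_le_const
    intro x hx
    have hx' := hmemI s hs r hr x hx
    have h1 := hKb x (hsub x hx')
    have h2 := (hk1 x hx').2
    rw [Real.norm_eq_abs, hl, abs_mul, abs_mul, abs_of_pos ht0]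
    calc t * (|lam x| * |k x|) ≤ t * (K * 1) := by gcongr
      _ = t * K := by ring
  have hdiff : ∀ r ∈ Icc al om, ∀ s ∈ Icc al om,
      |(L s - L r) - t * (Lam s - Lam r)| ≤ 1 / 100 := by
    intro r hr s hs
    have e1 : Lam s - Lam r = ∫ x in r..s, lam x :=
      (intervalIntegral.integral_eq_sub_of_hasDerivAt (fun x _ => hLam x)
        (hlam.intervalIntegrable _ _)).symm
    have clt : Continuous fun x => t * lam x := by fun_prop
    have e3 : (∫ x in r..s, l x) - ∫ x in r..s, t * lam x = ∫ x in r..s, (l x - t * lam x) :=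
      (intervalIntegral.integral_sub (cl.intervalIntegrable _ _) (clt.intervalIntegrable _ _)).symm
    rw [Lsub r s, e1, ← intervalIntegral.integral_const_mul, e3]
    have h1 : ∀ x ∈ uIoc r s, ‖l x - t * lam x‖ ≤ C * K / t := by
      intro x hx
      have hx' := hmemI r hr s hs x hx
      have h1 := hKb x (hsub x hx')
      have h2 := (hk1 x hx').1
      have e2 : l x - t * lam x = t * (lam x * (k x - 1)) := by rw [hl]; ring
      rw [Real.norm_eq_abs, e2, abs_mul, abs_mul, abs_of_pos ht0]
      calc t * (|lam x| * |k x - 1|) ≤ t * (K * (C / t ^ 2)) := by gcongr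
        _ = C * K / t := by field_simp
    have h2 := intervalIntegral.norm_integral_le_of_norm_le_const h1
    rw [Real.norm_eq_abs] at h2
    refine h2.trans ?_
    have h3 : |s - r| ≤ p3 - p0 := by
      rw [abs_le]
      have := hsub r hr; have := hsub s hs
      simp only [mem_Icc] at *
      constructor <;> linarith
    calc C * K / t * |s - r| ≤ C * K / t * (p3 - p0) := by gcongr
      _ ≤ 1 / 100 := by
          rw [div_mul_eq_mul_div, div_le_iff₀ ht0]
          linarith
  have mal : al ∈ Icc al om := ⟨le_rfl, hlt.le⟩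
  have mom : om ∈ Icc al om := ⟨hlt.le, le_rfl⟩
  have mb : b ∈ Icc al om := ⟨hTrip.lt1.le, (hTrip.lt2.trans hTrip.lt3).le⟩
  have ma2 : a2 ∈ Icc al om := ⟨(hTrip.lt1.trans hTrip.lt2).le, hTrip.lt3.le⟩
  have hTrip' : Trip L (t * h - 1 / 50) (t * d + 1 / 50) al b a2 om := by
    refine ⟨hTrip.lt1, hTrip.lt2, hTrip.lt3, ?_, ?_, ?_, ?_, ?_, ?_⟩
    · have h1 := (abs_le.1 (hdiff al mal b mb)).1
      have h2 := mul_le_mul_of_nonneg_left hTrip.up1 ht0.le
      linarith
    · have h1 := (abs_le.1 (hdiff a2 ma2 b mb)).1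
      have h2 := mul_le_mul_of_nonneg_left hTrip.down ht0.le
      linarith
    · have h1 := (abs_le.1 (hdiff a2 ma2 om mom)).1
      have h2 := mul_le_mul_of_nonneg_left hTrip.up2 ht0.le
      linarith
    · intro r s hr hrs hs
      have h1 := (abs_le.1 (hdiff r ⟨hr, (hrs.trans hs).trans mb.2⟩ s
        ⟨hr.trans hrs, hs.trans mb.2⟩)).1
      have h2 := mul_le_mul_of_nonneg_left (hTrip.near1 r s hr hrs hs) ht0.le
      linarith
    · intro r s hr hrs hs
      have h1 := (abs_le.1 (hdiff r ⟨mb.1.trans hr, (hrs.trans hs).trans ma2.2⟩ s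
        ⟨(mb.1.trans hr).trans hrs, hs.trans ma2.2⟩)).2
      have h2 := mul_le_mul_of_nonneg_left (hTrip.near2 r s hr hrs hs) ht0.le
      linarith
    · intro r s hr hrs hs
      have h1 := (abs_le.1 (hdiff r ⟨ma2.1.trans hr, hrs.trans hs⟩ s
        ⟨(ma2.1.trans hr).trans hrs, hs⟩)).1
      have h2 := mul_le_mul_of_nonneg_left (hTrip.near3 r s hr hrs hs) ht0.le
      linarith
  have cth := hP.th_cont
  have ccon : ContinuousOn c (Icc al om) := fun s hs => (hP.dc s hs).continuousAt.continuousWithinAt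
  set cc : ℝ → ℝ := IccExtend hlt.le (restrict (Icc al om) c) with hcc
  have ccc : Continuous cc := (continuousOn_iff_continuous_restrict.1 ccon).Icc_extend'
  have cceq : ∀ s ∈ Icc al om, cc s = c s := fun s hs => by
    rw [hcc, IccExtend_of_mem _ _ hs]
    rfl
  have hrep := hREP l L c a (fun s => c s - th s) al om hlt.le cl dL (ccon.sub cth.continuousOn)
    hP.dc (fun s hs => by
      have h1 := hP.da s hs
      have e : t * (lam s * k s) * a s - c s + th s = l s * a s - (c s - th s) := by
        rw [hl]; ring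
      rwa [e] at h1) hP.a0 hP.c0
  have heq : ∀ s ∈ Icc al om, cc s = 1 - T L al cc s + T L al th s := by
    intro s hs
    have h1 := (hrep s hs).1
    rw [T_congr hs.1 (g := fun x => cc x + (- th x)) fun x hx => by
      simp only [cceq x ⟨hx.1, hx.2.trans hs.2⟩]; ring, T_add cL ccc (by fun_prop), T_neg] at h1
    rw [cceq s hs, h1]
    ring
  have hgoal := core (q := 3 / 2 * Real.exp (t * d + 1 / 50) * (om - al) ^ 2) (e := C * K / t) cL hlt
    (by positivity) ?_ (by positivity) ?_ ?_ ?_ ccc cth heq ?_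
  · rw [cceq om mom] at hgoal
    exact hgoal
  · rw [Real.exp_add]
    have h1 := exp_fiftieth
    have h2 : 0 ≤ Real.exp (t * d) * (om - al) ^ 2 := by positivity
    calc 3 / 2 * (Real.exp (t * d) * Real.exp (1 / 50)) * (om - al) ^ 2 =
          3 / 2 * ((Real.exp (t * d) * (om - al) ^ 2) * Real.exp (1 / 50)) := by ring
      _ ≤ 3 / 2 * (1 / 64 * (50 / 49)) := by gcongr
      _ ≤ 1 / 40 := by norm_num
  · rw [div_le_iff₀ ht0]
    linarith
  · exact hT3 L (t * h - 1 / 50) (t * d + 1 / 50) al b a2 om cL (by positivity) hTrip'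
  · have htK : 1 ≤ t * K := one_le_mul_of_one_le_of_one_le ht1 hK
    have hexp5 : 5 ≤ t * h := by
      by_contra hcon
      rw [not_le] at hcon
      have h1 : Real.exp (t * h) ≤ Real.exp 5 := Real.exp_le_exp.2 hcon.le
      have h2 : Real.exp 5 = Real.exp 1 ^ 5 := by rw [← Real.exp_nat_mul]; norm_num
      have h3 := Real.exp_one_lt_d9
      have h4 : Real.exp 1 ^ 5 ≤ 2.7182818286 ^ 5 := pow_le_pow_left₀ (Real.exp_pos 1).le h3.le 5
      have h5 : (2.7182818286 : ℝ) ^ 5 ≤ 200 := by norm_num
      nlinarith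
    have h1 := hT1 L (t * K) (t * h - 1 / 50) (t * d + 1 / 50) al b a2 om cL (by positivity)
      (by linarith) Lip hTrip'
    have hV : 0 ≤ T L al (T L al 1) om := T_nonneg hlt.le fun x hx =>
      T_nonneg hx.1 fun y _ => zero_le_one
    have h2 : 3 * (t * K) ^ 2 * Real.exp (2 - (t * h - 1 / 50)) ≤ 1 / 8 := by
      have e1 : (2:ℝ) - (t * h - 1 / 50) = (2 + 1 / 50) + -(t * h) := by ring
      rw [e1, Real.exp_add, Real.exp_neg, Real.exp_add]
      have h3 : Real.exp 2 ≤ 8 := by
        have h4 : Real.exp 2 = Real.exp 1 ^ 2 := by rw [← Real.exp_nat_mul]; norm_num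
        rw [h4]
        have h5 := Real.exp_one_lt_d9
        have h6 : Real.exp 1 ^ 2 ≤ 2.7182818286 ^ 2 := pow_le_pow_left₀ (Real.exp_pos 1).le h5.le 2
        have h7 : (2.7182818286 : ℝ) ^ 2 ≤ 8 := by norm_num
        linarith
      have h4 := exp_fiftieth
      have h5 : (Real.exp (t * h))⁻¹ ≤ (400 * (1 + t * K) ^ 2)⁻¹ := inv_anti₀ (by positivity) hexp2
      have h6 : (0:ℝ) < (1 + t * K) ^ 2 := by positivity
      calc 3 * (t * K) ^ 2 * (Real.exp 2 * Real.exp (1 / 50) * (Real.exp (t * h))⁻¹)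
          ≤ 3 * (1 + t * K) ^ 2 * (8 * (50 / 49) * (400 * (1 + t * K) ^ 2)⁻¹) := by
            gcongr
            linarith
        _ = 3 * 8 * (50 / 49) / 400 := by field_simp
        _ ≤ 1 / 8 := by norm_num
    calc T L al 1 om ≤ _ := h1
      _ ≤ 1 / 8 * T L al (T L al 1) om := mul_le_mul_of_nonneg_right h2 hV
      _ = _ := by ring
  · intro s hs M hM
    have h1 : ∀ r ∈ Icc al s, |c r| ≤ M := fun r hr => by
      have := hM r hr
      rwa [cceq r ⟨hr.1, hr.2.trans hs.2⟩] at this
    have hM0 : 0 ≤ M := (abs_nonneg _).trans (h1 al ⟨le_rfl, hs.1⟩)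
    refine (hP.th_le s hs M h1).trans ?_
    have h2 := hKb s (hsub s hs)
    calc C / t * |lam s| * M ≤ C / t * K * M := by gcongr
      _ = C * K / t * M := by ring

end Pool.Agent.W414.LG
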